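import Pool.Agent.H9.SG.H9Dfb

/-! Basic facts on `Def` and the hierarchy `Lh`. -/

open Ordinal Cardinal Order Set
open scoped ZFSet

namespace SG

theorem mem_Def {x A y : V} : y ∈ Def x A ↔ ∃ (φ : Fml) (l : List V), (∀ p ∈ l, p ∈ x) ∧
    y = x.sep fun z => SatP (· ∈ x) (· ∈ A) φ (cons z fun i => l.getD i z) := by
  unfold Def
  rw [ZFSet.mem_sep]
  constructor
  · exact fun h => h.2
  · rintro ⟨φ, l, hl, rfl⟩
    exact ⟨ZFSet.mem_powerset.2 (ZFSet.sep_subset), φ, l, hl, rfl⟩

theorem Def_sub {x A y : V} (h : y ∈ Def x A) : y ⊆ x := by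
  obtain ⟨φ, l, -, rfl⟩ := mem_Def.1 h
  exact ZFSet.sep_subset

theorem mem_Lh {a A : V} {α : Ordinal.{1}} {x : V} :
    x ∈ Lh a A α ↔ x ∈ a ∨ ∃ β < α, x ∈ Def (Lh a A β) A := by
  rw [Lh]
  simp only [ZFSet.mem_union, ZFSet.mem_iUnion, Subtype.exists, Set.mem_Iio, exists_prop]

theorem sub_Lh {a A : V} {α : Ordinal.{1}} : a ⊆ Lh a A α := fun _ h => mem_Lh.2 (Or.inl h)

theorem Lh_mono {a A : V} {α β : Ordinal.{1}} (h : α ≤ β) : Lh a A α ⊆ Lh a A β := by
  intro x hx
  rcases mem_Lh.1 hx with hx | ⟨γ, hγ, hx⟩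
  · exact sub_Lh hx
  · exact mem_Lh.2 (Or.inr ⟨γ, lt_of_lt_of_le hγ h, hx⟩)

@[simp] theorem Lh_zero {a A : V} : Lh a A 0 = a := by
  ext x
  rw [mem_Lh]
  simp

/-- definable subsets with parameters, in the form which is used in practice: finitely many
parameters, all the other variables have an arbitrary value in the set -/
theorem def_mem {x A : V} (φ : Fml) (v : ℕ → V) (hv : ∀ i, v i ∈ x) :
    (x.sep fun z => SatP (· ∈ x) (· ∈ A) φ (cons z v)) ∈ Def x A := by
  refine mem_Def.2 ⟨φ, (List.range φ.bd).map v, ?_, ?_⟩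
  · intro p hp
    obtain ⟨i, -, rfl⟩ := List.mem_map.1 hp
    exact hv i
  · ext z
    simp only [ZFSet.mem_sep]
    refine and_congr_right fun hz => satP_congr _ _ _ _ _ fun i hi => ?_
    cases i with
    | zero => rfl
    | succ n =>
      show v n = _
      rw [cons_succ, List.getD_eq_getElem _ _ (by simp; omega)]
      simp

theorem mem_Def_iff {x A y : V} : y ∈ Def x A ↔ (y = ∅ ∧ x = ∅) ∨ ∃ (φ : Fml) (v : ℕ → V),
    (∀ i, v i ∈ x) ∧ y = x.sep fun z => SatP (· ∈ x) (· ∈ A) φ (cons z v) := by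
  constructor
  · intro h
    rcases ZFSet.eq_empty_or_nonempty x with hx | ⟨w, hw⟩
    · left
      have h1 := Def_sub h
      subst hx
      exact ⟨(ZFSet.eq_empty _).2 fun z hz => ZFSet.notMem_empty _ (h1 hz), rfl⟩
    · right
      obtain ⟨φ, l, hl, rfl⟩ := mem_Def.1 h
      refine ⟨φ.rn (fun j => if j ≤ l.length then j else 0), fun i => l.getD i w, ?_, ?_⟩
      · intro i
        show l.getD i w ∈ x
        rw [List.getD_eq_getElem?_getD]
        by_cases hi : i < l.length
        · rw [List.getElem?_eq_getElem hi]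
          exact hl _ (List.getElem_mem hi)
        · rw [List.getElem?_eq_none (by omega)]
          exact hw
      · ext z
        simp only [ZFSet.mem_sep]
        refine and_congr_right fun hz => ?_
        rw [satP_rn]
        have e : (fun i => cons z (fun i => l.getD i w) (if i ≤ l.length then i else 0)) =
            cons z fun i => l.getD i z := by
          funext i
          cases i with
          | zero => rfl
          | succ n =>
            by_cases hn : n + 1 ≤ l.length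
            · rw [if_pos hn]
              simp only [cons_succ]
              rw [List.getD_eq_getElem _ _ (by omega), List.getD_eq_getElem _ _ (by omega)]
            · rw [if_neg hn]
              simp only [cons_succ, cons_zero]
              rw [List.getD_eq_default _ _ (by omega)]
        rw [e]
  · rintro (⟨rfl, rfl⟩ | ⟨φ, v, hv, rfl⟩)
    · refine mem_Def.2 ⟨.eq 0 0, [], by simp, ?_⟩
      ext z
      simp
    · exact def_mem φ v hv

theorem self_mem_Def {x A : V} : x ∈ Def x A := by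
  refine mem_Def.2 ⟨.eq 0 0, [], by simp, ?_⟩
  ext z
  simp only [ZFSet.mem_sep, SatP, and_true]

theorem sub_Def {x A : V} (hx : x.IsTransitive) : x ⊆ Def x A := by
  intro y hy
  have h := def_mem (x := x) (A := A) (.mem 0 1) (fun _ => y) (fun _ => hy)
  have e : (x.sep fun z => SatP (· ∈ x) (· ∈ A) (.mem 0 1) (cons z fun _ => y)) = y := by
    ext z
    simp only [ZFSet.mem_sep, SatP, cons_zero, cons_succ]
    exact ⟨fun h => h.2, fun h => ⟨hx y hy h, h⟩⟩
  rwa [e] at h

theorem Lh_isTransitive {a A : V} (ha : a.IsTransitive) (α : Ordinal.{1}) :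
    (Lh a A α).IsTransitive := by
  intro x hx y hy
  rcases mem_Lh.1 hx with hx | ⟨β, hβ, hx⟩
  · exact sub_Lh (ha x hx hy)
  · exact Lh_mono hβ.le (Def_sub hx hy)

theorem Def_Lh_sub {a A : V} {α β : Ordinal.{1}} (h : α < β) : Def (Lh a A α) A ⊆ Lh a A β :=
  fun _ hx => mem_Lh.2 (Or.inr ⟨α, h, hx⟩)

theorem Lh_mem {a A : V} {α β : Ordinal.{1}} (h : α < β) : Lh a A α ∈ Lh a A β :=
  Def_Lh_sub h self_mem_Def

theorem Lh_succ {a A : V} (ha : a.IsTransitive) (α : Ordinal.{1}) :
    Lh a A (Order.succ α) = Def (Lh a A α) A := by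
  ext x
  constructor
  · intro hx
    rcases mem_Lh.1 hx with h1 | ⟨β, hβ, h1⟩
    · exact sub_Def (Lh_isTransitive ha α) (sub_Lh h1)
    · rcases (Order.lt_succ_iff.1 hβ).eq_or_lt with h | h
      · rw [← h]
        exact h1
      · exact sub_Def (Lh_isTransitive ha α) (Def_Lh_sub h h1)
  · intro hx
    exact Def_Lh_sub (Order.lt_succ α) hx

theorem mem_Lh_limit {a A : V} {γ : Ordinal.{1}} (hγ : IsSuccLimit γ) {x : V} :
    x ∈ Lh a A γ ↔ ∃ β < γ, x ∈ Lh a A β := by
  constructor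
  · intro hx
    rcases mem_Lh.1 hx with hx | ⟨β, hβ, hx⟩
    · exact ⟨0, hγ.bot_lt, sub_Lh hx⟩
    · exact ⟨Order.succ β, hγ.succ_lt hβ, Def_Lh_sub (Order.lt_succ β) hx⟩
  · rintro ⟨β, hβ, hx⟩
    exact Lh_mono hβ.le hx

/-! ### formulas without the predicate -/

/-- the predicate symbol is replaced by a contradiction -/
def Fml.np : Fml → Fml
  | .mem i j => .mem i j
  | .eq i j => .eq i j
  | .prd i => .neg (.eq i i)
  | .neg φ => .neg φ.np
  | .and φ ψ => .and φ.np ψ.np
  | .ex φ => .ex φ.np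

theorem satP_np (M A : V → Prop) (φ : Fml) (v : ℕ → V) : SatP M A φ.np v ↔ Sat M φ v := by
  unfold Sat
  induction φ generalizing v with
  | mem i j => rfl
  | eq i j => rfl
  | prd i => simp [Fml.np, SatP]
  | neg φ ih => simp only [Fml.np, SatP, ih]
  | and φ ψ ih1 ih2 => simp only [Fml.np, SatP, ih1, ih2]
  | ex φ ih => simp only [Fml.np, SatP, ih]

/-- the class of all transitive classes -/
def KT (M : V → Prop) : Prop := ∀ x, M x → ∀ y ∈ x, M y

theorem ktr_kt : KTr KT := fun _ h => h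

/-- a subset of a transitive set which is defined by a uniformly definable relation is in `Def` -/
theorem dfb_mem_Def {x A : V} (hx : x.IsTransitive) {R : (V → Prop) → (ℕ → V) → Prop}
    (hR : Dfb KT R) (v : ℕ → V) (hv : ∀ i, v i ∈ x) :
    (x.sep fun z => R (· ∈ x) (cons z v)) ∈ Def x A := by
  obtain ⟨φ, hφ⟩ := hR
  have h := def_mem (x := x) (A := A) φ.np v hv
  have e : (x.sep fun z => SatP (· ∈ x) (· ∈ A) φ.np (cons z v)) =
      x.sep fun z => R (· ∈ x) (cons z v) := by
    ext z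
    simp only [ZFSet.mem_sep]
    refine and_congr_right fun hz => ?_
    rw [satP_np]
    exact hφ (· ∈ x) (fun y hy z hz => hx y hy hz) (cons z v) (In.cons hv hz)
  rwa [e] at h

/-! ### ordinals in the levels -/

theorem dfb_ord : Dfb KT (fun _ v => ZFSet.IsOrdinal (v 0)) := by
  have h1 : Dfb KT (fun _ v => ∀ y ∈ v 0, ∀ z ∈ y, z ∈ v 0) :=
    Dfb.ball (R := fun _ v => ∀ z ∈ v 0, z ∈ v 1) ktr_kt (Tm.var 0)
      (Dfb.ball (R := fun _ v => v 0 ∈ v 2) ktr_kt (Tm.var 0) (Dfb.mem (Tm.var 0) (Tm.var 2)))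
  have h2 : Dfb KT (fun _ v => ∀ w ∈ v 0, ∀ z ∈ w, ∀ y ∈ z, y ∈ w) :=
    Dfb.ball (R := fun _ v => ∀ z ∈ v 0, ∀ y ∈ z, y ∈ v 0) ktr_kt (Tm.var 0)
      (Dfb.ball (R := fun _ v => ∀ y ∈ v 0, y ∈ v 1) ktr_kt (Tm.var 0)
        (Dfb.ball (R := fun _ v => v 0 ∈ v 2) ktr_kt (Tm.var 0) (Dfb.mem (Tm.var 0) (Tm.var 2))))
  refine (h1.and h2).congr fun M _ v _ => ?_
  constructor
  · rintro ⟨a, b⟩
    exact ⟨fun y hy z hz => a y hy z hz, fun {y z w} h3 h4 h5 => b w h5 z h4 y h3⟩
  · intro h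
    exact ⟨fun y hy z hz => h.isTransitive y hy hz, fun w hw z hz y hy => h.mem_trans' hy hz hw⟩

theorem ord_sub_Lh {a A : V} (ha : a.IsTransitive) (α : Ordinal.{1}) :
    α.toZFSet ⊆ Lh a A α ∧ ∀ β, α < β → α.toZFSet ∈ Lh a A β := by
  induction α using WellFoundedLT.induction with
  | ind α ih =>
    have h1 : α.toZFSet ⊆ Lh a A α := by
      intro x hx
      obtain ⟨β, hβ, rfl⟩ := Ordinal.mem_toZFSet_iff.1 hx
      exact (ih β hβ).2 α hβ
    refine ⟨h1, fun β hβ => ?_⟩
    by_cases hc : α.toZFSet ∈ Lh a A α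
    · exact Lh_mono hβ.le hc
    · refine Def_Lh_sub hβ ?_
      rcases ZFSet.eq_empty_or_nonempty (Lh a A α) with he | ⟨w, hw⟩
      · have : α.toZFSet = Lh a A α := by
          rw [he]
          exact (ZFSet.eq_empty _).2 fun z hz => ZFSet.notMem_empty z (he ▸ h1 hz)
        rw [this]
        exact self_mem_Def
      · have h2 := dfb_mem_Def (x := Lh a A α) (A := A) (Lh_isTransitive ha α) dfb_ord
          (fun _ => w) (fun _ => hw)
        have e : ((Lh a A α).sep fun z => ZFSet.IsOrdinal (cons z (fun _ => w) 0)) = α.toZFSet := by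
          ext z
          simp only [ZFSet.mem_sep, cons_zero]
          constructor
          · rintro ⟨h3, h4⟩
            rw [← h4.toZFSet_rank_eq]
            refine Ordinal.toZFSet_mem_toZFSet_iff.2 ?_
            by_contra h5
            rw [not_lt] at h5
            rcases h5.eq_or_lt with h6 | h6
            · have h7 : α.toZFSet = z := by
                rw [h6]
                exact h4.toZFSet_rank_eq
              exact hc (h7 ▸ h3)
            · refine hc (Lh_isTransitive ha α z h3 ?_)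
              rw [← h4.toZFSet_rank_eq]
              exact Ordinal.toZFSet_mem_toZFSet_iff.2 h6
          · intro h3
            obtain ⟨β, -, rfl⟩ := Ordinal.mem_toZFSet_iff.1 h3
            exact ⟨h1 h3, ZFSet.isOrdinal_toZFSet β⟩
        rwa [e] at h2

theorem ord_mem_Lh {a A : V} (ha : a.IsTransitive) {α β : Ordinal.{1}} (h : α < β) :
    α.toZFSet ∈ Lh a A β := (ord_sub_Lh ha α).2 β h

/-- for a definable relation, with the parameters in a level -/
theorem dfb_mem_Lh {a A : V} (ha : a.IsTransitive) {α β : Ordinal.{1}} (h : α < β)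
    {R : (V → Prop) → (ℕ → V) → Prop} (hR : Dfb KT R) (v : ℕ → V) (hv : ∀ i, v i ∈ Lh a A α) :
    ((Lh a A α).sep fun z => R (· ∈ Lh a A α) (cons z v)) ∈ Lh a A β :=
  Def_Lh_sub h (dfb_mem_Def (Lh_isTransitive ha α) hR v hv)

theorem pair_mem_Lh {a A : V} (ha : a.IsTransitive) {α β : Ordinal.{1}} (h : α < β) {x y : V}
    (hx : x ∈ Lh a A α) (hy : y ∈ Lh a A α) : ({x, y} : V) ∈ Lh a A β := by
  have h1 := dfb_mem_Lh (A := A) ha h (R := fun _ v => v 0 = v 1 ∨ v 0 = v 2)
    ((Dfb.eq (Tm.var 0) (Tm.var 1)).or (Dfb.eq (Tm.var 0) (Tm.var 2)))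
    (fun i => if i = 0 then x else y) (fun i => by
      show (if i = 0 then x else y) ∈ _
      split_ifs
      · exact hx
      · exact hy)
  have e : ((Lh a A α).sep fun z => cons z (fun i => if i = 0 then x else y) 0 =
      cons z (fun i => if i = 0 then x else y) 1 ∨ cons z (fun i => if i = 0 then x else y) 0 =
      cons z (fun i => if i = 0 then x else y) 2) = {x, y} := by
    ext z
    simp only [ZFSet.mem_sep, cons_zero, cons_succ, ZFSet.mem_pair]
    constructor
    · rintro ⟨-, h⟩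
      simpa using h
    · rintro (rfl | rfl)
      · exact ⟨hx, by simp⟩
      · exact ⟨hy, by simp⟩
  rwa [e] at h1

theorem union_mem_Lh {a A : V} (ha : a.IsTransitive) {α β : Ordinal.{1}} (h : α < β) {x : V}
    (hx : x ∈ Lh a A α) : (⋃₀ x : ZFSet) ∈ Lh a A β := by
  have h1 := dfb_mem_Lh (A := A) ha h (R := fun _ v => ∃ y ∈ v 1, v 0 ∈ y)
    (Dfb.bex (R := fun _ v => v 1 ∈ v 0) ktr_kt (Tm.var 1) (Dfb.mem (Tm.var 1) (Tm.var 0)))
    (fun _ => x) (fun _ => hx)
  have e : ((Lh a A α).sep fun z => ∃ y ∈ cons z (fun _ => x) 1, cons z (fun _ => x) 0 ∈ y) =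
      (⋃₀ x : ZFSet) := by
    ext z
    simp only [ZFSet.mem_sep, cons_zero, cons_succ, ZFSet.mem_sUnion]
    constructor
    · exact fun h => h.2
    · rintro ⟨y, hy, hz⟩
      exact ⟨Lh_isTransitive ha α y (Lh_isTransitive ha α x hx hy) hz, y, hy, hz⟩
  rwa [e] at h1

theorem pred_mem_Lh {a A : V} {α β : Ordinal.{1}} (h : α < β) :
    A ∩ Lh a A α ∈ Lh a A β := by
  refine Def_Lh_sub h (mem_Def.2 ⟨.prd 0, [], by simp, ?_⟩)
  ext z
  simp only [ZFSet.mem_sep, SatP, cons_zero, ZFSet.mem_inter]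
  exact and_comm

end SG
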