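import Pool.Agent.H9.SG.H68LT3
import Pool.Agent.H9.SG.H7SatS

/-! Part L (constructibility): exact targets, fourth list: the definable subsets as an enumerated
family. -/

open Ordinal Cardinal Order Set
open scoped ZFSet

namespace SG

/-- The definable subsets of `x` are the sets `Dx x A i`, `i ∈ Ix x`, with uniformly definable
functions `Ix`, `Dx`, and an enumeration of `x` gives an enumeration `En g x` of `Ix x`. -/
def T_LDX : Prop := ∃ (Ix : V → V) (Dx : V → V → V → V) (En : V → V → V),
  Tm ZFm (fun _ v => Ix (v 0)) ∧ Tm ZFm (fun _ v => Dx (v 0) (v 1) (v 2)) ∧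
  Tm ZFm (fun _ v => En (v 0) (v 1)) ∧
  (∀ x A, Def x A = imS (Ix x) fun i => Dx x A i) ∧
  ∀ g x, Enm g x → Enm (En g x) (Ix x)

/-- enumeration of the (codes of the) lists of elements of `x` from an enumeration of `x` -/
def T_LLE : Prop := ∃ En : V → V → V, Tm ZFm (fun _ v => En (v 0) (v 1)) ∧
  ∀ g x, Enm g x → Enm (En g x) (Lw x)

/-- enumeration of the codes of the formulas -/
def T_LCE : Prop := ∃ c : V, Tm ZFm (fun _ _ => c) ∧ Enm c CD

end SG
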