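import Pool.Agent.H9.SG.H68LT4

/-! Enumeration of the codes of the formulas (module LCE). -/

set_option linter.unusedVariables false

open Ordinal Cardinal Order Set
open scoped ZFSet

namespace SG.H4

open SG

/-- enumeration of the union of two sets -/
noncomputable def enB (g h : V) : V := enU {ZFSet.pair (nS 0) g, ZFSet.pair (nS 1) h}

/-- enumeration of a one-element set -/
noncomputable def enS (a : V) : V := {ZFSet.pair (nS 0) a}

/-- enumeration of the natural numbers -/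
noncomputable def enO : V := imS om fun n => ZFSet.pair n n

theorem enm_rg {e x : V} (h : Enm e x) : rg e = x := by
  ext y
  rw [mem_rg]
  constructor
  · rintro ⟨ξ, hξ⟩
    obtain ⟨ξ', y', hy', he⟩ := h.pr _ hξ
    rw [(ZFSet.pair_inj.1 he).2]
    exact hy'
  · exact h.onto y

theorem enm_enS (a : V) : Enm (enS a) {a} := by
  refine ⟨?_, ?_, ?_⟩
  · intro q hq
    rw [enS, ZFSet.mem_singleton] at hq
    exact ⟨((0 : ℕ) : Ordinal.{1}), a, ZFSet.mem_singleton.2 rfl, hq⟩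
  · intro x y z hy hz
    rw [enS, ZFSet.mem_singleton, ZFSet.pair_inj] at hy hz
    rw [hy.2, hz.2]
  · intro y hy
    rw [ZFSet.mem_singleton] at hy
    subst hy
    exact ⟨nS 0, ZFSet.mem_singleton.2 rfl⟩

theorem enm_enO : Enm enO om := by
  refine ⟨?_, ?_, ?_⟩
  · intro q hq
    obtain ⟨n, hn, rfl⟩ := mem_imS.1 hq
    obtain ⟨m, rfl⟩ := mem_om.1 hn
    exact ⟨(m : Ordinal.{1}), nS m, hn, rfl⟩
  · intro x y z hy hz
    obtain ⟨n, -, h1⟩ := mem_imS.1 hy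
    obtain ⟨m, -, h2⟩ := mem_imS.1 hz
    rw [ZFSet.pair_inj] at h1 h2
    rw [← h1.2, ← h2.2, h1.1, h2.1]
  · intro y hy
    exact ⟨y, mem_imS.2 ⟨y, hy, rfl⟩⟩

theorem enm_enB (hLEP : T_LEP) {g h x y : V} (hg : Enm g x) (hh : Enm h y) :
    Enm (enB g h) (x ∪ y) := by
  have h1 : Enm ({ZFSet.pair (nS 0) g, ZFSet.pair (nS 1) h} : V) {g, h} := by
    refine ⟨?_, ?_, ?_⟩
    · intro q hq
      rcases ZFSet.mem_pair.1 hq with rfl | rfl
      · exact ⟨((0 : ℕ) : Ordinal.{1}), g, by simp, rfl⟩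
      · exact ⟨((1 : ℕ) : Ordinal.{1}), h, by simp, rfl⟩
    · intro a b c hb hc
      have h01 : nS 0 ≠ nS 1 := fun h => by
        have := nS_inj.1 h
        omega
      rw [ZFSet.mem_pair, ZFSet.pair_inj, ZFSet.pair_inj] at hb hc
      rcases hb with ⟨h2, h3⟩ | ⟨h2, h3⟩
      · rcases hc with ⟨h4, h5⟩ | ⟨h4, h5⟩
        · rw [h3, h5]
        · exact absurd (h2.symm.trans h4) h01
      · rcases hc with ⟨h4, h5⟩ | ⟨h4, h5⟩
        · exact absurd (h4.symm.trans h2) h01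
        · rw [h3, h5]
    · intro z hz
      rcases ZFSet.mem_pair.1 hz with rfl | rfl
      · exact ⟨nS 0, by simp⟩
      · exact ⟨nS 1, by simp⟩
  have h2 := hLEP.2.2 _ _ h1 (by
    intro t ht
    rcases ZFSet.mem_pair.1 ht with rfl | rfl
    · rw [snd_pair, enm_rg hg]
      exact hg
    · rw [snd_pair, enm_rg hh]
      exact hh)
  have h3 : (⋃₀ (imS ({ZFSet.pair (nS 0) g, ZFSet.pair (nS 1) h} : V) fun t => rg (snd t)) :
      ZFSet) = x ∪ y := by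
    ext z
    rw [ZFSet.mem_sUnion, ZFSet.mem_union]
    constructor
    · rintro ⟨w, hw, hz⟩
      obtain ⟨t, ht, rfl⟩ := mem_imS.1 hw
      rcases ZFSet.mem_pair.1 ht with rfl | rfl
      · rw [snd_pair, enm_rg hg] at hz
        exact Or.inl hz
      · rw [snd_pair, enm_rg hh] at hz
        exact Or.inr hz
    · rintro (hz | hz)
      · refine ⟨_, mem_imS.2 ⟨_, ZFSet.mem_pair.2 (Or.inl rfl), rfl⟩, ?_⟩
        rw [snd_pair, enm_rg hg]
        exact hz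
      · refine ⟨_, mem_imS.2 ⟨_, ZFSet.mem_pair.2 (Or.inr rfl), rfl⟩, ?_⟩
        rw [snd_pair, enm_rg hh]
        exact hz
  rw [h3] at h2
  exact h2

/-- enumeration of the atomic codes -/
noncomputable def enC0 : V :=
  enB (enP (enS (nS 0)) (enP enO enO))
    (enB (enP (enS (nS 1)) (enP enO enO)) (enP (enS (nS 2)) enO))

/-- one step -/
noncomputable def enCs (e : V) : V :=
  enB e (enB (enP (enS (nS 3)) e) (enB (enP (enS (nS 4)) (enP e e)) (enP (enS (nS 5)) e)))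

theorem enm_C0 (hLEP : T_LEP) : Enm enC0 CD0 :=
  enm_enB hLEP (hLEP.1 _ _ _ _ (enm_enS _) (hLEP.1 _ _ _ _ enm_enO enm_enO))
    (enm_enB hLEP (hLEP.1 _ _ _ _ (enm_enS _) (hLEP.1 _ _ _ _ enm_enO enm_enO))
      (hLEP.1 _ _ _ _ (enm_enS _) enm_enO))

theorem enm_Cs (hLEP : T_LEP) {e x : V} (h : Enm e x) : Enm (enCs e) (CDs x) :=
  enm_enB hLEP h (enm_enB hLEP (hLEP.1 _ _ _ _ (enm_enS _) h)
    (enm_enB hLEP (hLEP.1 _ _ _ _ (enm_enS _) (hLEP.1 _ _ _ _ h h))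
      (hLEP.1 _ _ _ _ (enm_enS _) h)))

theorem enm_it (hLEP : T_LEP) (n : ℕ) : Enm (enCs^[n] enC0) (CDs^[n] CD0) := by
  induction n with
  | zero => exact enm_C0 hLEP
  | succ n ih =>
    rw [Function.iterate_succ_apply', Function.iterate_succ_apply']
    exact enm_Cs hLEP ih

/-- the family of the enumerations of the stages -/
noncomputable def enH : V := imS om fun y => ZFSet.pair y (enCs^[nn y] enC0)

theorem enm_H : Enm enH (imS om fun y => enCs^[nn y] enC0) := by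
  refine ⟨?_, ?_, ?_⟩
  · intro q hq
    obtain ⟨n, hn, rfl⟩ := mem_imS.1 hq
    obtain ⟨m, rfl⟩ := mem_om.1 hn
    exact ⟨(m : Ordinal.{1}), _, mem_imS.2 ⟨nS m, hn, rfl⟩, rfl⟩
  · intro x y z hy hz
    obtain ⟨n, -, h1⟩ := mem_imS.1 hy
    obtain ⟨m, -, h2⟩ := mem_imS.1 hz
    rw [ZFSet.pair_inj] at h1 h2
    rw [← h1.2, ← h2.2, h1.1, h2.1]
  · intro y hy
    obtain ⟨n, hn, rfl⟩ := mem_imS.1 hy
    exact ⟨n, mem_imS.2 ⟨n, hn, rfl⟩⟩

theorem enm_CD (hLEP : T_LEP) : Enm (enU enH) CD := by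
  have h2 := hLEP.2.2 _ _ enm_H (by
    intro t ht
    obtain ⟨n, hn, rfl⟩ := mem_imS.1 ht
    rw [snd_pair, enm_rg (enm_it hLEP (nn n))]
    exact enm_it hLEP (nn n))
  have h3 : (⋃₀ (imS enH fun t => rg (snd t)) : ZFSet) = CD := by
    ext z
    rw [ZFSet.mem_sUnion, mem_CD_iff]
    constructor
    · rintro ⟨w, hw, hz⟩
      obtain ⟨t, ht, rfl⟩ := mem_imS.1 hw
      obtain ⟨n, hn, rfl⟩ := mem_imS.1 ht
      rw [snd_pair, enm_rg (enm_it hLEP (nn n))] at hz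
      exact ⟨nn n, hz⟩
    · rintro ⟨n, hz⟩
      refine ⟨_, mem_imS.2 ⟨_, mem_imS.2 ⟨nS n, nS_mem_om n, rfl⟩, rfl⟩, ?_⟩
      rw [snd_pair, nn_nS, enm_rg (enm_it hLEP n)]
      exact hz
  rw [h3] at h2
  exact h2

section tm

variable {f g : (V → Prop) → (ℕ → V) → V}

theorem tm_enP (hLEQ : T_LEQ) (hf : Tm ZFm f) (hg : Tm ZFm g) :
    Tm ZFm (fun M v => enP (f M v) (g M v)) :=
  Tm.at2 (F := fun _ x y => enP x y) hLEQ.1 hf hg

theorem tm_enU (hLEQ : T_LEQ) (hf : Tm ZFm f) : Tm ZFm (fun M v => enU (f M v)) :=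
  Tm.at1 (F := fun _ x => enU x) hLEQ.2.1 hf

theorem tm_enB (hLEQ : T_LEQ) (hf : Tm ZFm f) (hg : Tm ZFm g) :
    Tm ZFm (fun M v => enB (f M v) (g M v)) :=
  tm_enU hLEQ (Tm.upair (Tm.pair (Tm.nS 0) hf) (Tm.pair (Tm.nS 1) hg))

theorem tm_enS (hf : Tm ZFm f) : Tm ZFm (fun M v => enS (f M v)) :=
  Tm.sing (Tm.pair (Tm.nS 0) hf)

theorem tm_enO : Tm ZFm (fun _ _ => enO) :=
  Tm.image (g := fun _ u => ZFSet.pair (u 0) (u 0)) Tm.om (Tm.pair (Tm.var 0) (Tm.var 0))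

theorem tm_C0 (hLEQ : T_LEQ) : Tm ZFm (fun _ _ => enC0) :=
  tm_enB hLEQ (tm_enP hLEQ (tm_enS (Tm.nS 0)) (tm_enP hLEQ tm_enO tm_enO))
    (tm_enB hLEQ (tm_enP hLEQ (tm_enS (Tm.nS 1)) (tm_enP hLEQ tm_enO tm_enO))
      (tm_enP hLEQ (tm_enS (Tm.nS 2)) tm_enO))

theorem tm_Cs (hLEQ : T_LEQ) : Tm ZFm (fun _ u => enCs (u 0)) :=
  tm_enB hLEQ (Tm.var 0) (tm_enB hLEQ (tm_enP hLEQ (tm_enS (Tm.nS 3)) (Tm.var 0))
    (tm_enB hLEQ (tm_enP hLEQ (tm_enS (Tm.nS 4)) (tm_enP hLEQ (Tm.var 0) (Tm.var 0)))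
      (tm_enP hLEQ (tm_enS (Tm.nS 5)) (Tm.var 0))))

theorem it_enC (M : V → Prop) (v : ℕ → V) (n : ℕ) :
    it (fun _ u => enCs (u 0)) (fun _ _ => enC0) M v n = enCs^[n] enC0 := by
  induction n with
  | zero => rfl
  | succ n ih =>
    rw [Function.iterate_succ_apply', ← ih]
    rfl

theorem tm_H (hLEQ : T_LEQ) : Tm ZFm (fun _ _ => enH) := by
  refine Tm.image (g := fun _ u => ZFSet.pair (u 0) (enCs^[nn (u 0)] enC0)) Tm.om
    (Tm.pair (Tm.var 0) ?_)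
  exact (tm_it (tm_Cs hLEQ) (tm_C0 hLEQ)).congr fun M k v hv => it_enC M _ _

end tm

theorem lce (hLEP : T_LEP) (hLEQ : T_LEQ) : T_LCE :=
  ⟨enU enH, tm_enU hLEQ (tm_H hLEQ), enm_CD hLEP⟩

end SG.H4
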