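import Pool.Agent.H9.SG.H68LT2

/-! Enumerations of products, images, unions (module LEP). -/

open Ordinal Cardinal Order Set
open scoped ZFSet

namespace SG

private theorem lep_idx {L a b c d : Ordinal.{1}} (hb : b < L) (hd : d < L)
    (h : L * a + b = L * c + d) : a = c ∧ b = d := by
  have hL : L ≠ 0 := by
    rintro rfl
    exact absurd hb (not_lt_of_ge zero_le)
  constructor
  · have h1 := congrArg (· / L) h
    simp only [Ordinal.mul_add_div _ hL, Ordinal.div_eq_zero_of_lt hb,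
      Ordinal.div_eq_zero_of_lt hd, add_zero] at h1
    exact h1
  · have h1 := congrArg (· % L) h
    simp only [Ordinal.mul_add_mod_self, Ordinal.mod_eq_of_lt hb,
      Ordinal.mod_eq_of_lt hd] at h1
    exact h1

private theorem lep_lt {g y : V} {ξ : Ordinal.{1}} (h : ZFSet.pair ξ.toZFSet y ∈ g) :
    ξ < g.rank := by
  have h1 := rank_lt_of_pair_mem_left h
  rwa [Ordinal.rank_toZFSet] at h1

private theorem lep_prod (g h x y : V) (hg : Enm g x) (hh : Enm h y) :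
    Enm (enP g h) (ZFSet.prod x y) := by
  have key : ∀ t, t ∈ enP g h ↔ ∃ (ξ δ : Ordinal.{1}) (u w : V),
      ZFSet.pair ξ.toZFSet u ∈ g ∧ ZFSet.pair δ.toZFSet w ∈ h ∧
      ZFSet.pair (h.rank * ξ + δ).toZFSet (ZFSet.pair u w) = t := by
    intro t
    unfold enP
    rw [mem_imS]
    constructor
    · rintro ⟨s, hs, rfl⟩
      obtain ⟨q, hq, r, hr, rfl⟩ := ZFSet.mem_prod.1 hs
      obtain ⟨ξ, u, -, rfl⟩ := hg.pr q hq
      obtain ⟨δ, w, -, rfl⟩ := hh.pr r hr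
      refine ⟨ξ, δ, u, w, hq, hr, ?_⟩
      simp only [fst_pair, snd_pair, Ordinal.rank_toZFSet]
    · rintro ⟨ξ, δ, u, w, hq, hr, rfl⟩
      refine ⟨ZFSet.pair (ZFSet.pair ξ.toZFSet u) (ZFSet.pair δ.toZFSet w),
        ZFSet.pair_mem_prod.2 ⟨hq, hr⟩, ?_⟩
      simp only [fst_pair, snd_pair, Ordinal.rank_toZFSet]
  refine ⟨?_, ?_, ?_⟩
  · intro t ht
    obtain ⟨ξ, δ, u, w, hq, hr, rfl⟩ := (key t).1 ht
    refine ⟨_, _, ?_, rfl⟩
    obtain ⟨ξ', u', hu', e1⟩ := hg.pr _ hq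
    obtain ⟨δ', w', hw', e2⟩ := hh.pr _ hr
    rw [ZFSet.pair_inj] at e1 e2
    rw [e1.2, e2.2]
    exact ZFSet.pair_mem_prod.2 ⟨hu', hw'⟩
  · intro a b c hb hc
    obtain ⟨ξ, δ, u, w, hq, hr, e1⟩ := (key _).1 hb
    obtain ⟨ξ', δ', u', w', hq', hr', e2⟩ := (key _).1 hc
    rw [ZFSet.pair_inj] at e1 e2
    have e3 := Ordinal.toZFSet_injective (e1.1.trans e2.1.symm)
    obtain ⟨rfl, rfl⟩ := lep_idx (lep_lt hr) (lep_lt hr') e3
    have e4 := hg.svl _ _ _ hq hq'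
    have e5 := hh.svl _ _ _ hr hr'
    rw [← e1.2, ← e2.2, e4, e5]
  · intro z hz
    obtain ⟨u, hu, w, hw, rfl⟩ := ZFSet.mem_prod.1 hz
    obtain ⟨ξ, hξ⟩ := hg.onto u hu
    obtain ⟨δ, hδ⟩ := hh.onto w hw
    obtain ⟨ξ', u', hu', e1⟩ := hg.pr _ hξ
    obtain ⟨δ', w', hw', e2⟩ := hh.pr _ hδ
    rw [ZFSet.pair_inj] at e1 e2
    rw [e1.1] at hξ
    rw [e2.1] at hδ
    exact ⟨_, (key _).2 ⟨ξ', δ', u, w, hξ, hδ, rfl⟩⟩

private theorem lep_im (g x : V) (F : V → V) (hg : Enm g x) : Enm (enI g F) (imS x F) := by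
  have key : ∀ t, t ∈ enI g F ↔ ∃ (ξ : Ordinal.{1}) (u : V),
      ZFSet.pair ξ.toZFSet u ∈ g ∧ ZFSet.pair ξ.toZFSet (F u) = t := by
    intro t
    unfold enI
    rw [mem_imS]
    constructor
    · rintro ⟨q, hq, rfl⟩
      obtain ⟨ξ, u, -, rfl⟩ := hg.pr q hq
      refine ⟨ξ, u, hq, ?_⟩
      simp only [fst_pair, snd_pair]
    · rintro ⟨ξ, u, hq, rfl⟩
      refine ⟨_, hq, ?_⟩
      simp only [fst_pair, snd_pair]
  refine ⟨?_, ?_, ?_⟩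
  · intro t ht
    obtain ⟨ξ, u, hq, rfl⟩ := (key t).1 ht
    refine ⟨_, _, ?_, rfl⟩
    obtain ⟨ξ', u', hu', e1⟩ := hg.pr _ hq
    rw [ZFSet.pair_inj] at e1
    rw [e1.2]
    exact mem_imS.2 ⟨u', hu', rfl⟩
  · intro a b c hb hc
    obtain ⟨ξ, u, hq, e1⟩ := (key _).1 hb
    obtain ⟨ξ', u', hq', e2⟩ := (key _).1 hc
    rw [ZFSet.pair_inj] at e1 e2
    have e3 := Ordinal.toZFSet_injective (e1.1.trans e2.1.symm)
    subst e3
    have e4 := hg.svl _ _ _ hq hq'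
    rw [← e1.2, ← e2.2, e4]
  · intro z hz
    obtain ⟨u, hu, rfl⟩ := mem_imS.1 hz
    obtain ⟨ξ, hξ⟩ := hg.onto u hu
    obtain ⟨ξ', u', hu', e1⟩ := hg.pr _ hξ
    rw [ZFSet.pair_inj] at e1
    rw [e1.1] at hξ
    exact ⟨_, (key _).2 ⟨ξ', u, hξ, rfl⟩⟩

private theorem lep_un (H I : V) (hH : Enm H I) (hE : ∀ t ∈ H, Enm (snd t) (rg (snd t))) :
    Enm (enU H) (⋃₀ (imS H fun t => rg (snd t)) : ZFSet) := by
  have hE' : ∀ (i : Ordinal.{1}) (e : V), ZFSet.pair i.toZFSet e ∈ H → Enm e (rg e) := by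
    intro i e h
    have h1 := hE _ h
    rwa [snd_pair] at h1
  have key : ∀ t, t ∈ enU H ↔ ∃ (i ξ : Ordinal.{1}) (e y : V),
      ZFSet.pair i.toZFSet e ∈ H ∧ ZFSet.pair ξ.toZFSet y ∈ e ∧
      ZFSet.pair (H.rank * i + ξ).toZFSet y = t := by
    intro t
    unfold enU
    rw [ZFSet.mem_sUnion]
    constructor
    · rintro ⟨s, hs, ht⟩
      obtain ⟨r, hr, rfl⟩ := mem_imS.1 hs
      obtain ⟨q, hq, rfl⟩ := mem_imS.1 ht
      obtain ⟨i, e, -, rfl⟩ := hH.pr r hr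
      rw [snd_pair] at hq
      obtain ⟨ξ, y, -, rfl⟩ := (hE' i e hr).pr q hq
      refine ⟨i, ξ, e, y, hr, hq, ?_⟩
      simp only [fst_pair, snd_pair, Ordinal.rank_toZFSet]
    · rintro ⟨i, ξ, e, y, hr, hq, rfl⟩
      refine ⟨_, mem_imS.2 ⟨_, hr, rfl⟩, mem_imS.2 ⟨ZFSet.pair ξ.toZFSet y, ?_, ?_⟩⟩
      · rw [snd_pair]
        exact hq
      · simp only [fst_pair, snd_pair, Ordinal.rank_toZFSet]
  have hlt : ∀ (i ξ : Ordinal.{1}) (e y : V), ZFSet.pair i.toZFSet e ∈ H →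
      ZFSet.pair ξ.toZFSet y ∈ e → ξ < H.rank := by
    intro i ξ e y h1 h2
    exact (lep_lt h2).trans (rank_lt_of_pair_mem_right h1)
  refine ⟨?_, ?_, ?_⟩
  · intro t ht
    obtain ⟨i, ξ, e, y, hr, hq, rfl⟩ := (key t).1 ht
    refine ⟨_, _, ?_, rfl⟩
    refine ZFSet.mem_sUnion.2 ⟨rg e, mem_imS.2 ⟨_, hr, by rw [snd_pair]⟩, mem_rg.2 ⟨_, hq⟩⟩
  · intro a b c hb hc
    obtain ⟨i, ξ, e, y, hr, hq, e1⟩ := (key _).1 hb
    obtain ⟨i', ξ', e', y', hr', hq', e2⟩ := (key _).1 hc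
    rw [ZFSet.pair_inj] at e1 e2
    have e3 := Ordinal.toZFSet_injective (e1.1.trans e2.1.symm)
    obtain ⟨rfl, rfl⟩ := lep_idx (hlt _ _ _ _ hr hq) (hlt _ _ _ _ hr' hq') e3
    have e4 := hH.svl _ _ _ hr hr'
    subst e4
    have e5 := (hE' _ _ hr).svl _ _ _ hq hq'
    rw [← e1.2, ← e2.2, e5]
  · intro z hz
    obtain ⟨s, hs, hzs⟩ := ZFSet.mem_sUnion.1 hz
    obtain ⟨r, hr, rfl⟩ := mem_imS.1 hs
    obtain ⟨i, e, -, rfl⟩ := hH.pr r hr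
    rw [snd_pair] at hzs
    obtain ⟨ξ, hξ⟩ := (hE' i e hr).onto z hzs
    obtain ⟨ξ', u', hu', e1⟩ := (hE' i e hr).pr _ hξ
    rw [ZFSet.pair_inj] at e1
    rw [e1.1] at hξ
    exact ⟨_, (key _).2 ⟨i, ξ', e, z, hr, hξ, rfl⟩⟩

theorem pf_LEP : T_LEP := ⟨lep_prod, lep_im, lep_un⟩

end SG
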