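import Pool.Agent.H9.SG.H68LT4

/-! `T_LHT`, `T_RKT`, `T_LDX` -/

open Ordinal Cardinal Order Set
open scoped ZFSet

namespace SG

theorem pf_RKT : T_RKT := Tm.rkS (Tm.var 0)

theorem pf_LHT : T_LHT := by
  refine (Tm.LhS (Tm.var 0) (Tm.var 1) (Tm.rkS (Tm.var 2))).congr fun M k v hv => ?_
  show LhS (v 0) (v 1) (v 2).rank.toZFSet = _
  exact LhS_ord _ _ _

theorem pf_LDX (hLEP : T_LEP) (hLEQ : T_LEQ) (hLLE : T_LLE) (hLCE : T_LCE) : T_LDX := by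
  obtain ⟨En, hEn, hEn2⟩ := hLLE
  obtain ⟨c, hc, hc2⟩ := hLCE
  refine ⟨fun x => ZFSet.prod CD (Lw x), fun x A i => x.sep fun z =>
    ZFSet.pair z (ZFSet.pair z (snd i)) ∈ sS x A (fst i), fun g x => enP c (En g x), ?_, ?_, ?_, ?_,
    fun g x h => hLEP.1 _ _ _ _ hc2 (hEn2 g x h)⟩
  · exact Tm.prod Tm.CD (Tm.Lw (Tm.var 0))
  · exact Tm.sep (R := fun _ w => ZFSet.pair (w 0) (ZFSet.pair (w 0) (snd (w 3))) ∈
      sS (w 1) (w 2) (fst (w 3)))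
      (Dfb.mem (Tm.pair (Tm.var 0) (Tm.pair (Tm.var 0) (Tm.snd (Tm.var 3))))
        (Tm.sS (Tm.var 1) (Tm.var 2) (Tm.fst (Tm.var 3)))) (Tm.var 0)
  · exact Tm.at2 (F := fun _ x y => enP x y) hLEQ.1 hc hEn
  · intro x A
    ext y
    rw [mem_Def', mem_imS]
    constructor
    · rintro ⟨c, hc, s, hs, rfl⟩
      refine ⟨ZFSet.pair c s, ZFSet.pair_mem_prod.2 ⟨hc, hs⟩, ?_⟩
      simp only [fst_pair, snd_pair]
    · rintro ⟨i, hi, rfl⟩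
      obtain ⟨c, hc, s, hs, rfl⟩ := ZFSet.mem_prod.1 hi
      refine ⟨c, hc, s, hs, ?_⟩
      simp only [fst_pair, snd_pair]

end SG
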