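import Pool.Agent.H9.SG.H68LBas

/-! Part L (constructibility): exact targets. -/

open Ordinal Cardinal Order Set
open scoped ZFSet

namespace SG

/-! ### from part T -/

/-- `Lh` as a uniformly definable function of `(a, A, α)` (here `α` is the rank of the third
argument) -/
def T_LHT : Prop := Tm ZFm (fun _ v => Lh (v 0) (v 1) (v 2).rank)

/-- the rank -/
def T_RKT : Prop := Tm ZFm (fun _ v => (v 0).rank.toZFSet)

/-- Reflection for a definable hierarchy: `H α`, `α` an ordinal in `M`, is increasing, continuous,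
`H α ∈ M`, and `x ∈ H α` is definable over `M` with one parameter `p`. -/
def T_REFL : Prop := ∀ (M : V → Prop), ZFm M → ∀ (H : Ordinal.{1} → V) (p : V) (η φ : Fml), M p →
  (∀ α, M α.toZFSet → M (H α)) → (∀ α β, α ≤ β → H α ⊆ H β) →
  (∀ α, IsSuccLimit α → ∀ x ∈ H α, ∃ β < α, x ∈ H β) →
  (∀ α, M α.toZFSet → ∀ x, M x →
    (x ∈ H α ↔ Sat M η (cons x (cons α.toZFSet (fun _ => p))))) →
  ∀ α, M α.toZFSet → ∃ β, α < β ∧ M β.toZFSet ∧ ∀ v : ℕ → V, (∀ i, v i ∈ H β) →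
    (Sat (· ∈ H β) φ v ↔ Sat (fun x => ∃ α, M (Ordinal.toZFSet α) ∧ x ∈ H α) φ v)

/-! ### cardinalities, the chain lemma -/

/-- the cardinality of the levels -/
def T_LCA : Prop := ∀ (a A : V) (α : Ordinal.{1}),
  (Lh a A α).card ≤ max (max ℵ₀ a.card) α.card

/-- the chain lemma: elementary levels -/
def T_LCH : Prop := ∀ (κ : Cardinal.{1}), κ.IsRegular → ℵ₀ < κ → ∀ (a A : V), a.IsTransitive →
  a.card < κ → ∀ δ < κ.ord, ∃ δ', δ < δ' ∧ δ' < κ.ord ∧ ∀ (φ : Fml) (v : ℕ → V),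
    (∀ i, v i ∈ Lh a A δ') →
    (SatP (· ∈ Lh a A δ') (· ∈ A) φ v ↔ SatP (· ∈ Lh a A κ.ord) (· ∈ A) φ v)

/-- levels of regular uncountable height are models of `ZF⁻` -/
def T_LZF : Prop := ∀ (κ : Cardinal.{1}), κ.IsRegular → ℵ₀ < κ → ∀ (a A : V), a.IsTransitive →
  a.card < κ → ZFm (· ∈ Lh a A κ.ord)

/-! ### Löwenheim–Skolem, collapse, elementary maps -/

/-- Löwenheim–Skolem with a closure function `E` -/
def T_LLS : Prop := ∀ (κ : Cardinal.{1}), κ.IsRegular → ℵ₀ < κ → ∀ (N S : V), N.Nonempty →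
  S ⊆ N → S.card < κ → ∀ E : V → V, (∀ x ∈ N, (E x).card < κ ∧ E x ⊆ N) →
  ∃ X, ElSub X N ∧ S ⊆ X ∧ X.card < κ ∧ ∀ x ∈ X, E x ⊆ X

/-- the transitive collapse of an elementary submodel -/
def T_LCO : Prop := ∀ (N X : V), N.IsTransitive → N.Nonempty → ElSub X N →
  ∃ N' f, N'.IsTransitive ∧ IsElem N' N f ∧ (∀ y, y ∈ X ↔ ∃ u ∈ N', app f u = y) ∧
    N'.card = X.card ∧
    (∀ u ∈ N', ∀ y, y ∈ u ↔ y ∈ N' ∧ app f y ∈ app f u) ∧
    ∀ t : V, t.IsTransitive → t ⊆ X → ∀ u ∈ t, u ∈ N' ∧ app f u = u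

/-- elementary maps transfer definable relations -/
def T_LED : Prop := ∀ (K : (V → Prop) → Prop) (R : (V → Prop) → (ℕ → V) → Prop), Dfb K R →
  ∀ (N' N f : V), IsElem N' N f → K (· ∈ N') → K (· ∈ N) → ∀ v : ℕ → V, (∀ i, v i ∈ N') →
    (R (· ∈ N') v ↔ R (· ∈ N) fun i => app f (v i))

/-- elementary maps commute with definable functions -/
def T_LET : Prop := ∀ (K : (V → Prop) → Prop) (F : (V → Prop) → (ℕ → V) → V), Tm K F →
  ∀ (N' N f : V), IsElem N' N f → K (· ∈ N') → K (· ∈ N) → ∀ v : ℕ → V, (∀ i, v i ∈ N') →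
    app f (F (· ∈ N') v) = F (· ∈ N) fun i => app f (v i)

/-- `ZF⁻` and `ZFC⁻` go down along elementary maps -/
def T_LEZ : Prop := ∀ (N' N f : V), N'.Nonempty → N'.IsTransitive → IsElem N' N f →
  (ZFm (· ∈ N) → ZFm (· ∈ N')) ∧ (ZFCm (· ∈ N) → ZFCm (· ∈ N'))

/-! ### inner models, height -/

/-- the constructible closure in a model of `ZF⁻` is a model of `ZF⁻` -/
def T_LIN : Prop := ∀ (M : V → Prop), ZFm M → ∀ a A, M a → M A → a.IsTransitive →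
  ZFm (fun x => ∃ α : Ordinal.{1}, M α.toZFSet ∧ x ∈ Lh a A α)

/-- the height of a level which is a model of `ZF⁻` -/
def T_LHE : Prop := ∀ (a A : V) (γ : Ordinal.{1}), a.IsTransitive → ZFm (· ∈ Lh a A γ) →
  a ∈ Lh a A γ → A ∈ Lh a A γ → IsSuccLimit γ ∧ ∀ α : Ordinal.{1}, α.toZFSet ∈ Lh a A γ ↔ α < γ

/-- restriction of an elementary map to the constructible parts -/
def T_LRS : Prop := ∀ (M' M A' A f : V), ZFm (· ∈ M') → ZFm (· ∈ M) → IsElem M' M f →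
  A' ∈ M' → app f A' = A → ∀ (τ' τ : Ordinal.{1}),
  (∀ α : Ordinal.{1}, α.toZFSet ∈ M' ↔ α < τ') → (∀ α : Ordinal.{1}, α.toZFSet ∈ M ↔ α < τ) →
  (∀ x ∈ LA A' τ', app f x ∈ LA A τ) ∧ ∀ (φ : Fml) (v : ℕ → V), (∀ i, v i ∈ LA A' τ') →
    (Sat (· ∈ LA A' τ') φ v ↔ Sat (· ∈ LA A τ) φ fun i => app f (v i))

end SG
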