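import Pool.Agent.H9.SG.H68LT3

/-! # MP_3b3fc8_lc, module LPR: the predicate in the small model -/

open Ordinal Cardinal Order Set
open scoped ZFSet

namespace SG.H78

open SG

/-- every element of the structure is in some level over the first argument -/
def Lvl (M : V → Prop) (v : ℕ → V) : Prop :=
  ∀ x, M x → ∃ o, M o ∧ (IsOrd o ∧ x ∈ Lh ∅ (v 0) o.rank)

theorem dfb_lvl (hLHT : T_LHT) : Dfb ZFm Lvl := by
  have h0 : Tm ZFm (fun _ v => Lh ∅ (v 2) (v 0).rank) :=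
    Tm.at3 (F := fun _ x y z => Lh x y z.rank) hLHT Tm.empty (Tm.var 2) (Tm.var 0)
  have h1 : Dfb ZFm (fun _ v => IsOrd (v 0) ∧ v 1 ∈ Lh ∅ (v 2) (v 0).rank) :=
    (Dfb.isOrd (Tm.var 0)).and (Dfb.mem (Tm.var 1) h0)
  exact (h1.ex.all).congr fun M k v hv => Iff.rfl

/-- the height of a model which is a set -/
theorem height {N : V} (k : ZFm (· ∈ N)) :
    ∃ τ : Ordinal.{1}, IsSuccLimit τ ∧ ∀ α : Ordinal.{1}, α.toZFSet ∈ N ↔ α < τ := by
  have hne : {α : Ordinal.{1} | α.toZFSet ∉ N}.Nonempty := ⟨N.rank, fun h => by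
    have h1 := ZFSet.rank_lt_of_mem h
    rw [Ordinal.rank_toZFSet] at h1
    exact lt_irrefl _ h1⟩
  have hlt : ∀ α : Ordinal.{1}, α.toZFSet ∈ N ↔ α < sInf {α : Ordinal.{1} | α.toZFSet ∉ N} := by
    intro α
    constructor
    · intro h
      by_contra h2
      have h2 := not_lt.1 h2
      have h4 : (sInf {α : Ordinal.{1} | α.toZFSet ∉ N}).toZFSet ∉ N := csInf_mem hne
      apply h4
      rcases h2.eq_or_lt with h3 | h3
      · rw [h3]
        exact h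
      · exact k.trans _ h _ (Ordinal.toZFSet_mem_toZFSet_iff.2 h3)
    · intro h
      by_contra h2
      have h3 : sInf {α : Ordinal.{1} | α.toZFSet ∉ N} ≤ α := csInf_le' h2
      exact absurd h (not_lt.2 h3)
  refine ⟨_, ?_, hlt⟩
  have h0 : (0 : Ordinal.{1}) < sInf {α : Ordinal.{1} | α.toZFSet ∉ N} := by
    rw [← hlt]
    have h1 := k.mempty
    simpa using h1
  refine ⟨not_isMin_of_lt h0, isSuccPrelimit_of_succ_lt fun a ha => ?_⟩
  rw [← hlt] at ha ⊢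
  have h1 := (Tm.ins (Tm.var 0) (Tm.var 0)).1 (· ∈ N) k (fun _ => a.toZFSet) (fun _ => ha)
  have h2 : (Order.succ a).toZFSet = insert a.toZFSet a.toZFSet := by
    rw [Order.succ_eq_add_one, Ordinal.toZFSet_add_one]
  rw [h2]
  exact h1

theorem eq_LA (hLHT : T_LHT) {N : V} {τ : Ordinal.{1}} (k : ZFm (· ∈ N))
    (hτ : ∀ α : Ordinal.{1}, α.toZFSet ∈ N ↔ α < τ) (hl : IsSuccLimit τ) {v : ℕ → V}
    (hv : v 0 ∈ N) (h : Lvl (· ∈ N) v) : N = LA (v 0) τ := by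
  ext x
  constructor
  · intro hx
    obtain ⟨o, ho, ⟨α, rfl⟩, hxo⟩ := h x hx
    rw [Ordinal.rank_toZFSet] at hxo
    exact Lh_mono ((hτ α).1 ho).le hxo
  · intro hx
    obtain ⟨β, hβ, hx⟩ := (mem_Lh_limit hl).1 hx
    have h1 := hLHT.1 (· ∈ N) k (cons ∅ (cons (v 0) fun _ => β.toZFSet))
      (In.cons (M := (· ∈ N)) (In.cons (M := (· ∈ N)) (fun _ => (hτ β).2 hβ) hv) k.mempty)
    have h2 : Lh ∅ (v 0) (β.toZFSet).rank ∈ N := h1
    rw [Ordinal.rank_toZFSet] at h2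
    exact k.trans _ h2 _ hx

theorem lvl_LA {N B : V} {τ : Ordinal.{1}} (hN : N = LA B τ)
    (hτ : ∀ α : Ordinal.{1}, α.toZFSet ∈ N ↔ α < τ) (hl : IsSuccLimit τ) {v : ℕ → V}
    (hv : v 0 = B) : Lvl (· ∈ N) v := by
  intro x hx
  rw [hN] at hx
  obtain ⟨β, hβ, hx⟩ := (mem_Lh_limit hl).1 hx
  refine ⟨β.toZFSet, (hτ β).2 hβ, ⟨β, rfl⟩, ?_⟩
  rw [Ordinal.rank_toZFSet, hv]
  exact hx

/-- LPR. The predicate in the small model. -/
theorem lpr (hLHT : T_LHT) (hLHE : T_LHE) (hLED : T_LED) (hLEZ : T_LEZ) : T_LPR := by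
  intro N' N f A τ hel hne htr hZ hA hN
  have hZ' : ZFCm (· ∈ N') := (hLEZ N' N f hne htr hel).2 hZ
  have k : ZFm (· ∈ N) := hZ.toZFm
  have k' : ZFm (· ∈ N') := hZ'.toZFm
  have hd := dfb_lvl hLHT
  have hN' : N = Lh ∅ A τ := hN
  obtain ⟨hl, hτ⟩ : IsSuccLimit τ ∧ ∀ α : Ordinal.{1}, α.toZFSet ∈ N ↔ α < τ := by
    have h1 := hLHE ∅ A τ ZFSet.isTransitive_empty (by rw [← hN']; exact k)
      (by rw [← hN']; exact k.mempty) (by rw [← hN']; exact hA)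
    rw [← hN'] at h1
    exact h1
  obtain ⟨τ', hl', hτ'⟩ := height k'
  obtain ⟨a, ha⟩ := hne
  have h1 := hLED ZFm _ hd.ex N' N f hel k' k (fun _ => a) (fun _ => ha)
  obtain ⟨A', hA', hl1⟩ := h1.2 ⟨A, hA, lvl_LA hN hτ hl rfl⟩
  have h2 : N' = LA A' τ' := eq_LA hLHT k' hτ' hl' (v := cons A' fun _ => a) hA' hl1
  have h3 := hLED ZFm _ hd N' N f hel k' k (fun _ => A') (fun _ => hA')
  have h4 : Lvl (· ∈ N) fun _ => app f A' := h3.1 (lvl_LA h2 hτ' hl' rfl)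
  refine ⟨⟨A', τ', hA', h2, ?_⟩, hZ'⟩
  exact eq_LA hLHT k hτ hl (v := fun _ => app f A') (app_mem hel.func hA') h4

end SG.H78
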