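import Pool.Agent.H9.SG.H45Stmt

/-! Relations and functions that are uniformly definable over a class `K` of structures.

`Dfb K R`: one formula defines the relation `R M v` (`v : ℕ → V` the arguments) in all `M` with
`K M`. `Tm K f`: all `M` with `K M` are closed under `f` and its graph is uniformly definable.
Relations and functions may depend on the structure `M`. Quantified variables are put in front of
the assignment (`cons x v`), as in `Sat`. -/

namespace SG

/-- renaming under a quantifier -/
def upr (ρ : ℕ → ℕ) : ℕ → ℕ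
  | 0 => 0
  | n + 1 => ρ n + 1

/-- renaming of variables -/
def Fml.rn : Fml → (ℕ → ℕ) → Fml
  | .mem i j, ρ => .mem (ρ i) (ρ j)
  | .eq i j, ρ => .eq (ρ i) (ρ j)
  | .prd i, ρ => .prd (ρ i)
  | .neg φ, ρ => .neg (φ.rn ρ)
  | .and φ ψ, ρ => .and (φ.rn ρ) (ψ.rn ρ)
  | .ex φ, ρ => .ex (φ.rn (upr ρ))

@[simp] theorem cons_zero (x : V) (v : ℕ → V) : cons x v 0 = x := rfl
@[simp] theorem cons_succ (x : V) (v : ℕ → V) (n : ℕ) : cons x v (n + 1) = v n := rfl

theorem cons_upr (x : V) (v : ℕ → V) (ρ : ℕ → ℕ) :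
    (fun i => cons x v (upr ρ i)) = cons x (fun i => v (ρ i)) := by
  funext i; cases i <;> rfl

theorem cons_tail (v : ℕ → V) : cons (v 0) (fun i => v (i + 1)) = v := by
  funext i; cases i <;> rfl

theorem satP_rn (M A : V → Prop) (φ : Fml) (ρ : ℕ → ℕ) (v : ℕ → V) :
    SatP M A (φ.rn ρ) v ↔ SatP M A φ (fun i => v (ρ i)) := by
  induction φ generalizing ρ v with
  | mem i j => rfl
  | eq i j => rfl
  | prd i => rfl
  | neg φ ih => simp only [Fml.rn, SatP, ih]
  | and φ ψ ih1 ih2 => simp only [Fml.rn, SatP, ih1, ih2]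
  | ex φ ih =>
    simp only [Fml.rn, SatP]
    refine exists_congr fun x => and_congr_right fun _ => ?_
    rw [ih, cons_upr]

/-- a bound for the free variables -/
def Fml.bd : Fml → ℕ
  | .mem i j => max i j + 1
  | .eq i j => max i j + 1
  | .prd i => i + 1
  | .neg φ => φ.bd
  | .and φ ψ => max φ.bd ψ.bd
  | .ex φ => φ.bd - 1

theorem satP_congr (M A : V → Prop) (φ : Fml) (v w : ℕ → V) (h : ∀ i < φ.bd, v i = w i) :
    SatP M A φ v ↔ SatP M A φ w := by
  induction φ generalizing v w with
  | mem i j =>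
    simp only [Fml.bd] at h
    simp only [SatP]
    rw [h i (by omega), h j (by omega)]
  | eq i j =>
    simp only [Fml.bd] at h
    simp only [SatP]
    rw [h i (by omega), h j (by omega)]
  | prd i =>
    simp only [Fml.bd] at h
    simp only [SatP]
    rw [h i (by omega)]
  | neg φ ih =>
    simp only [SatP]
    rw [ih v w h]
  | and φ ψ ih1 ih2 =>
    simp only [Fml.bd] at h
    simp only [SatP]
    rw [ih1 v w (fun i hi => h i (lt_max_of_lt_left hi)),
      ih2 v w (fun i hi => h i (lt_max_of_lt_right hi))]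
  | ex φ ih =>
    simp only [Fml.bd] at h
    simp only [SatP]
    refine exists_congr fun x => and_congr_right fun _ => ?_
    refine ih _ _ fun i hi => ?_
    cases i with
    | zero => rfl
    | succ n => exact h n (by omega)

/-- the assignment has its values in `M` -/
def In (M : V → Prop) (v : ℕ → V) : Prop := ∀ i, M (v i)

theorem In.cons {M : V → Prop} {v : ℕ → V} (h : In M v) {x : V} (hx : M x) :
    In M (cons x v) := fun i => by
  cases i with
  | zero => exact hx
  | succ n => exact h n

/-- `R` is uniformly definable over the structures of the class `K` -/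
def Dfb (K : (V → Prop) → Prop) (R : (V → Prop) → (ℕ → V) → Prop) : Prop :=
  ∃ φ : Fml, ∀ M, K M → ∀ v, In M v → (Sat M φ v ↔ R M v)

/-- `f` is a uniformly definable function over the structures of the class `K`, with values in
the structure -/
def Tm (K : (V → Prop) → Prop) (f : (V → Prop) → (ℕ → V) → V) : Prop :=
  (∀ M, K M → ∀ v, In M v → M (f M v)) ∧ Dfb K (fun M v => v 0 = f M (fun i => v (i + 1)))

variable {K K' : (V → Prop) → Prop} {R R' : (V → Prop) → (ℕ → V) → Prop}
  {f g h : (V → Prop) → (ℕ → V) → V}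

namespace Dfb

theorem congr (hR : Dfb K R) (h : ∀ M, K M → ∀ v, In M v → (R M v ↔ R' M v)) : Dfb K R' := by
  obtain ⟨φ, hφ⟩ := hR
  exact ⟨φ, fun M k v hv => (hφ M k v hv).trans (h M k v hv)⟩

theorem mono (hR : Dfb K R) (h : ∀ M, K' M → K M) : Dfb K' R := by
  obtain ⟨φ, hφ⟩ := hR
  exact ⟨φ, fun M k v hv => hφ M (h M k) v hv⟩

theorem not (h1 : Dfb K R) : Dfb K (fun M v => ¬ R M v) := by
  obtain ⟨φ, hφ⟩ := h1
  exact ⟨.neg φ, fun M k v hv => not_congr (hφ M k v hv)⟩

theorem and (h1 : Dfb K R) (h2 : Dfb K R') : Dfb K (fun M v => R M v ∧ R' M v) := by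
  obtain ⟨φ, hφ⟩ := h1
  obtain ⟨ψ, hψ⟩ := h2
  exact ⟨.and φ ψ, fun M k v hv => and_congr (hφ M k v hv) (hψ M k v hv)⟩

theorem or (h1 : Dfb K R) (h2 : Dfb K R') : Dfb K (fun M v => R M v ∨ R' M v) :=
  (h1.not.and h2.not).not.congr fun _ _ _ _ => by tauto

theorem imp (h1 : Dfb K R) (h2 : Dfb K R') : Dfb K (fun M v => R M v → R' M v) :=
  (h1.and h2.not).not.congr fun _ _ _ _ => by tauto

theorem iff (h1 : Dfb K R) (h2 : Dfb K R') : Dfb K (fun M v => R M v ↔ R' M v) :=
  ((h1.imp h2).and (h2.imp h1)).congr fun _ _ _ _ => by tauto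

/-- quantifier over the structure -/
theorem ex (h1 : Dfb K R) : Dfb K (fun M v => ∃ x, M x ∧ R M (cons x v)) := by
  obtain ⟨φ, hφ⟩ := h1
  refine ⟨.ex φ, fun M k v hv => ?_⟩
  exact exists_congr fun x => and_congr_right fun hx => hφ M k _ (hv.cons hx)

theorem all (h1 : Dfb K R) : Dfb K (fun M v => ∀ x, M x → R M (cons x v)) :=
  h1.not.ex.not.congr fun _ _ _ _ => by simp only [not_exists, not_and, not_not]

theorem rn (h1 : Dfb K R) (ρ : ℕ → ℕ) : Dfb K (fun M v => R M (fun i => v (ρ i))) := by
  obtain ⟨φ, hφ⟩ := h1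
  exact ⟨φ.rn ρ, fun M k v hv => (satP_rn M _ φ ρ v).trans (hφ M k _ fun i => hv _)⟩

theorem fls : Dfb K (fun _ _ => False) :=
  ⟨.and (.eq 0 0) (.neg (.eq 0 0)), fun M _ v _ => by
    constructor
    · rintro ⟨h1, h2⟩; exact h2 h1
    · exact False.elim⟩

theorem tru : Dfb K (fun _ _ => True) :=
  ⟨.eq 0 0, fun _ _ _ _ => ⟨fun _ => trivial, fun _ => rfl⟩⟩

end Dfb

/-- keep the variable `0`, shift the others by `j` -/
def shr (j : ℕ) : ℕ → ℕ
  | 0 => 0
  | n + 1 => n + (j + 1)

namespace Dfb

/-- substitution of definable functions for all variables -/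
theorem comp (h1 : Dfb K R) (F : ℕ → (V → Prop) → (ℕ → V) → V) (hF : ∀ i, Tm K (F i)) :
    Dfb K (fun M v => R M (fun i => F i M v)) := by
  obtain ⟨φ, hφ⟩ := h1
  have key : ∀ m j : ℕ, j + m = φ.bd → Dfb K (fun M v =>
      Sat M φ (fun i => if i < j then v (j - 1 - i) else F i M (fun n => v (n + j)))) := by
    intro m
    induction m with
    | zero =>
      intro j hj
      refine ⟨φ.rn (fun i => j - 1 - i), fun M _ v _ => ?_⟩
      unfold Sat
      rw [satP_rn]
      refine satP_congr M _ φ _ _ fun i hi => ?_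
      show v (j - 1 - i) = _
      rw [if_pos (by omega)]
    | succ m ih =>
      intro j hj
      have h2 := ih (j + 1) (by omega)
      have h3 := (hF j).2.rn (shr j)
      have e2 : ∀ (M : V → Prop) (v : ℕ → V),
          (fun i => if i < j + 1 then cons (F j M (fun n => v (n + j))) v (j + 1 - 1 - i)
            else F i M (fun n => cons (F j M (fun n => v (n + j))) v (n + (j + 1)))) =
          fun i => if i < j then v (j - 1 - i) else F i M (fun n => v (n + j)) := by
        intro M v
        funext i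
        by_cases hi : i < j
        · rw [if_pos (by omega), if_pos hi, show j + 1 - 1 - i = (j - 1 - i) + 1 by omega,
            cons_succ]
        · rw [if_neg hi]
          by_cases hij : i = j
          · subst hij
            rw [if_pos (by omega), show i + 1 - 1 - i = 0 by omega, cons_zero]
          · rw [if_neg (by omega)]
            rfl
      refine (h3.and h2).ex.congr fun M k v hv => ?_
      constructor
      · rintro ⟨x, hx, hx1, hx2⟩
        have hx3 : x = F j M (fun n => v (n + j)) := hx1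
        rw [hx3, e2] at hx2
        exact hx2
      · intro hs
        refine ⟨F j M (fun n => v (n + j)), (hF j).1 M k _ fun i => hv _, rfl, ?_⟩
        rw [e2]
        exact hs
  refine (key φ.bd 0 (by omega)).congr fun M k v hv => ?_
  have e : (fun i => if i < 0 then v (0 - 1 - i) else F i M (fun n => v (n + 0))) =
      fun i => F i M v := by
    funext i
    rw [if_neg (by omega)]
    rfl
  rw [e]
  exact hφ M k _ fun i => (hF i).1 M k v hv

end Dfb

namespace Tm

theorem var (i : ℕ) : Tm K (fun _ v => v i) :=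
  ⟨fun _ _ _ hv => hv i, ⟨.eq 0 (i + 1), fun _ _ _ _ => Iff.rfl⟩⟩

theorem mono (hf : Tm K f) (h : ∀ M, K' M → K M) : Tm K' f :=
  ⟨fun M k v hv => hf.1 M (h M k) v hv, hf.2.mono h⟩

theorem congr (hf : Tm K f) (h : ∀ M, K M → ∀ v, In M v → f M v = g M v) : Tm K g := by
  refine ⟨fun M k v hv => h M k v hv ▸ hf.1 M k v hv, hf.2.congr fun M k v hv => ?_⟩
  rw [h M k _ fun i => hv _]

/-- substitution of definable functions for all variables -/
theorem comp (hf : Tm K f) (F : ℕ → (V → Prop) → (ℕ → V) → V) (hF : ∀ i, Tm K (F i)) :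
    Tm K (fun M v => f M (fun i => F i M v)) := by
  refine ⟨fun M k v hv => hf.1 M k _ fun i => (hF i).1 M k v hv, ?_⟩
  have h1 := hf.2.comp
    (fun i => match i with
      | 0 => fun _ v => v 0
      | i + 1 => fun M v => F i M (fun n => v (n + 1)))
    (fun i => by
      cases i with
      | zero => exact Tm.var 0
      | succ i =>
        exact ⟨fun M k v hv => (hF i).1 M k _ fun n => hv _, (hF i).2.rn (shr 1)⟩)
  exact h1.congr fun M k v hv => Iff.rfl

/-- renaming of the arguments -/
theorem rn (hf : Tm K f) (ρ : ℕ → ℕ) : Tm K (fun M v => f M (fun i => v (ρ i))) :=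
  hf.comp (fun i _ v => v (ρ i)) fun i => Tm.var (ρ i)

end Tm

/-- assignment of finitely many functions, then the variables -/
def args (l : List ((V → Prop) → (ℕ → V) → V)) (i : ℕ) : (V → Prop) → (ℕ → V) → V :=
  match l, i with
  | [], i => fun _ v => v i
  | a :: _, 0 => a
  | _ :: l, i + 1 => args l i

theorem tm_args (l : List ((V → Prop) → (ℕ → V) → V)) (hl : ∀ a ∈ l, Tm K a) (i : ℕ) :
    Tm K (args l i) := by
  induction l generalizing i with
  | nil => exact Tm.var i
  | cons a l ih =>
    cases i with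
    | zero => exact hl a (by simp)
    | succ i => exact ih (fun b hb => hl b (by simp [hb])) i

namespace Dfb

/-- relation of one argument at a definable function -/
theorem at1 {P : (V → Prop) → V → Prop} (hP : Dfb K (fun M v => P M (v 0))) (hf : Tm K f) :
    Dfb K (fun M v => P M (f M v)) :=
  hP.comp (args [f]) (tm_args _ (by simpa using hf))

theorem at2 {P : (V → Prop) → V → V → Prop} (hP : Dfb K (fun M v => P M (v 0) (v 1)))
    (hf : Tm K f) (hg : Tm K g) : Dfb K (fun M v => P M (f M v) (g M v)) :=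
  hP.comp (args [f, g]) (tm_args _ (by
    intro a ha; simp only [List.mem_cons, List.not_mem_nil, or_false] at ha
    rcases ha with rfl | rfl <;> assumption))

theorem at3 {P : (V → Prop) → V → V → V → Prop}
    (hP : Dfb K (fun M v => P M (v 0) (v 1) (v 2)))
    (hf : Tm K f) (hg : Tm K g) (hh : Tm K h) :
    Dfb K (fun M v => P M (f M v) (g M v) (h M v)) :=
  hP.comp (args [f, g, h]) (tm_args _ (by
    intro a ha; simp only [List.mem_cons, List.not_mem_nil, or_false] at ha
    rcases ha with rfl | rfl | rfl <;> assumption))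

theorem mem (hf : Tm K f) (hg : Tm K g) : Dfb K (fun M v => f M v ∈ g M v) :=
  Dfb.at2 (P := fun _ x y => x ∈ y) ⟨.mem 0 1, fun _ _ _ _ => Iff.rfl⟩ hf hg

theorem eq (hf : Tm K f) (hg : Tm K g) : Dfb K (fun M v => f M v = g M v) :=
  Dfb.at2 (P := fun _ x y => x = y) ⟨.eq 0 1, fun _ _ _ _ => Iff.rfl⟩ hf hg

end Dfb

namespace Tm

theorem at1 {F : (V → Prop) → V → V} (hF : Tm K (fun M v => F M (v 0))) (hf : Tm K f) :
    Tm K (fun M v => F M (f M v)) :=
  hF.comp (args [f]) (tm_args _ (by simpa using hf))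

theorem at2 {F : (V → Prop) → V → V → V} (hF : Tm K (fun M v => F M (v 0) (v 1)))
    (hf : Tm K f) (hg : Tm K g) : Tm K (fun M v => F M (f M v) (g M v)) :=
  hF.comp (args [f, g]) (tm_args _ (by
    intro a ha; simp only [List.mem_cons, List.not_mem_nil, or_false] at ha
    rcases ha with rfl | rfl <;> assumption))

theorem at3 {F : (V → Prop) → V → V → V → V} (hF : Tm K (fun M v => F M (v 0) (v 1) (v 2)))
    (hf : Tm K f) (hg : Tm K g) (hh : Tm K h) :
    Tm K (fun M v => F M (f M v) (g M v) (h M v)) :=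
  hF.comp (args [f, g, h]) (tm_args _ (by
    intro a ha; simp only [List.mem_cons, List.not_mem_nil, or_false] at ha
    rcases ha with rfl | rfl | rfl <;> assumption))

end Tm

/-- all structures of the class are transitive -/
def KTr (K : (V → Prop) → Prop) : Prop := ∀ M, K M → ∀ x, M x → ∀ y ∈ x, M y

theorem ktr_zfm : KTr ZFm := fun _ k => k.trans

namespace Dfb

/-- bounded quantifiers, the bound is a definable function -/
theorem bex (hK : KTr K) (hf : Tm K f) (h1 : Dfb K R) :
    Dfb K (fun M v => ∃ x ∈ f M v, R M (cons x v)) := by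
  have h2 : Dfb K (fun M v => v 0 ∈ f M (fun i => v (i + 1))) :=
    Dfb.mem (Tm.var 0) (hf.rn (fun i => i + 1))
  refine (h2.and h1).ex.congr fun M k v hv => ?_
  constructor
  · rintro ⟨x, -, hx, hr⟩
    exact ⟨x, hx, hr⟩
  · rintro ⟨x, hx, hr⟩
    exact ⟨x, hK M k _ (hf.1 M k v hv) x hx, hx, hr⟩

theorem ball (hK : KTr K) (hf : Tm K f) (h1 : Dfb K R) :
    Dfb K (fun M v => ∀ x ∈ f M v, R M (cons x v)) :=
  ((h1.not).bex hK hf).not.congr fun _ _ _ _ => by
    simp only [not_exists, not_and, not_not]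

end Dfb

namespace Tm

/-- a function with values in the structure and definable membership is definable -/
theorem of_mem (hK : KTr K) (h0 : ∀ M, K M → ∀ v, In M v → M (f M v))
    (h1 : Dfb K (fun M v => v 0 ∈ f M (fun i => v (i + 1)))) : Tm K f := by
  refine ⟨h0, ?_⟩
  have h2 : Dfb K (fun M v => v 0 ∈ v 1 ↔ v 0 ∈ f M (fun i => v (i + 2))) :=
    (Dfb.mem (Tm.var 0) (Tm.var 1)).iff (h1.rn (shr 1))
  refine h2.all.congr fun M k v hv => ?_
  constructor
  · intro h
    ext x
    constructor
    · intro hx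
      exact (h x (hK M k _ (hv 0) x hx)).1 hx
    · intro hx
      exact (h x (hK M k _ (h0 M k _ fun i => hv (i + 1)) x hx)).2 hx
  · intro h x _
    show x ∈ v 0 ↔ _
    rw [h]
    rfl

/-- the same for a relation `R` with `x ∈ f v ↔ R (x, v)` for `x` in the structure -/
theorem of_rel (R : (V → Prop) → (ℕ → V) → Prop) (hK : KTr K)
    (h0 : ∀ M, K M → ∀ v, In M v → M (f M v)) (hR : Dfb K R)
    (h1 : ∀ M, K M → ∀ v, In M v → ∀ x, M x → (x ∈ f M v ↔ R M (cons x v))) : Tm K f := by
  refine of_mem hK h0 (hR.congr fun M k v hv => ?_)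
  rw [h1 M k (fun i => v (i + 1)) (fun i => hv _) (v 0) (hv 0), cons_tail]

/-- a function with values in the structure whose graph is definable -/
theorem of_graph (h0 : ∀ M, K M → ∀ v, In M v → M (f M v))
    (hR : Dfb K R) (h1 : ∀ M, K M → ∀ v, In M v → ∀ x, M x → (R M (cons x v) ↔ x = f M v)) :
    Tm K f := by
  refine ⟨h0, hR.congr fun M k v hv => ?_⟩
  rw [← h1 M k (fun i => v (i + 1)) (fun i => hv _) (v 0) (hv 0), cons_tail]

end Tm

/-! ### separation, collection and replacement for definable relations in models of `ZFm` -/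

/-- separation -/
theorem Tm.sep (hR : Dfb ZFm R) (hf : Tm ZFm f) :
    Tm ZFm (fun M v => (f M v).sep fun x => R M (cons x v)) := by
  obtain ⟨φ, hφ⟩ := id hR
  refine Tm.of_rel (fun M v => v 0 ∈ f M (fun i => v (i + 1)) ∧ R M v) ktr_zfm ?_
    ((Dfb.mem (Tm.var 0) (hf.rn (fun i => i + 1))).and hR) ?_
  · intro M k v hv
    have h1 := k.sep φ v (f M v) hv (hf.1 M k v hv)
    convert h1 using 1
    ext x
    simp only [ZFSet.mem_sep]
    refine and_congr_right fun hx => ?_
    exact (hφ M k _ (hv.cons (k.trans _ (hf.1 M k v hv) x hx))).symm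
  · intro M k v hv x hx
    simp only [ZFSet.mem_sep]
    exact Iff.rfl

/-- the set of all `F x`, `x ∈ a` -/
noncomputable def imS (a : V) (F : V → V) : V := ZFSet.range (fun x : {x // x ∈ a} => F x.1)

@[simp] theorem mem_imS {a : V} {F : V → V} {y : V} : y ∈ imS a F ↔ ∃ x ∈ a, F x = y := by
  simp [imS]

/-- replacement: the image of a definable set under a definable function -/
theorem Tm.image (hf : Tm ZFm f) (hg : Tm ZFm g) :
    Tm ZFm (fun M v => imS (f M v) fun x => g M (cons x v)) := by
  refine Tm.of_rel (fun M v => ∃ x ∈ f M (fun i => v (i + 1)), v 0 = g M (cons x fun i => v (i + 1)))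
    ktr_zfm ?_ ?_ ?_
  · intro M k v hv
    obtain ⟨φ, hφ⟩ := hg.2
    have hfM := hf.1 M k v hv
    obtain ⟨b, hb, hb2⟩ := k.coll φ v (f M v) hv hfM (by
      intro x hx
      have hxM := k.trans _ hfM x hx
      refine ⟨g M (cons x v), hg.1 M k _ (hv.cons hxM), ?_⟩
      exact (hφ M k _ ((hv.cons hxM).cons (hg.1 M k _ (hv.cons hxM)))).2 rfl)
    -- the image is a definable subset of `b`
    have hR : Dfb ZFm (fun M v => ∃ x ∈ v 1, v 0 = g M (cons x fun i => v (i + 2))) := by
      refine Dfb.congr (R := fun M v => ∃ x ∈ v 1, (cons x v) 1 = g M (fun i => (cons x v)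
        (match i with | 0 => 0 | i + 1 => i + 3))) (Dfb.bex ktr_zfm (Tm.var 1)
          (R := fun M v => v 1 = g M (fun i => v (match i with | 0 => 0 | i + 1 => i + 3)))
          (Dfb.eq (Tm.var 1) (hg.rn _))) ?_
      intro M k v hv
      refine exists_congr fun x => and_congr_right fun _ => ?_
      have e : (fun i => (cons x v) (match i with | 0 => 0 | i + 1 => i + 3)) =
          cons x fun i => v (i + 2) := by
        funext i; cases i <;> rfl
      rw [e]
      rfl
    obtain ⟨ψ, hψ⟩ := hR
    have h3 := k.sep ψ (cons (f M v) v) b (In.cons hv hfM) hb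
    convert h3 using 1
    ext y
    simp only [mem_imS, ZFSet.mem_sep]
    constructor
    · rintro ⟨x, hx, rfl⟩
      have hxM := k.trans _ hfM x hx
      obtain ⟨y, hy, hy2⟩ := hb2 x hx
      have hyM := k.trans _ hb y hy
      have h4 : y = g M (cons x v) := (hφ M k _ ((hv.cons hxM).cons hyM)).1 hy2
      subst h4
      refine ⟨hy, ?_⟩
      exact (hψ M k _ ((hv.cons hfM).cons hyM)).2 ⟨x, hx, rfl⟩
    · rintro ⟨hy, hy2⟩
      have hyM := k.trans _ hb y hy
      obtain ⟨x, hx, hx2⟩ := (hψ M k _ ((hv.cons hfM).cons hyM)).1 hy2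
      exact ⟨x, hx, hx2.symm⟩
  · refine Dfb.congr (R := fun M v => ∃ x ∈ f M (fun i => v (i + 1)), (cons x v) 1 =
      g M (fun i => (cons x v) (match i with | 0 => 0 | i + 1 => i + 2)))
      (Dfb.bex ktr_zfm (hf.rn (fun i => i + 1))
        (R := fun M v => v 1 = g M (fun i => v (match i with | 0 => 0 | i + 1 => i + 2)))
        (Dfb.eq (Tm.var 1) (hg.rn _))) ?_
    intro M k v hv
    refine exists_congr fun x => and_congr_right fun _ => ?_
    have e : (fun i => (cons x v) (match i with | 0 => 0 | i + 1 => i + 2)) =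
        cons x fun i => v (i + 1) := by
      funext i; cases i <;> rfl
    rw [e]
    rfl
  · intro M k v hv x hx
    simp only [mem_imS]
    refine exists_congr fun y => and_congr_right fun _ => ?_
    exact eq_comm

end SG
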